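import Pool.Agent.Helper23_TS.StmtsG
import Pool.Agent.Helper23_TS.Plc

/-!
LC: local criterion at a place where `h` is integral.
-/

open Polynomial NumberField IsDedekindDomain

namespace Pool.Agent.TS.H76

open H12UBI H58UB Pool.Agent.TS

/-- the matrix of the multiplication by `f` modulo `h` -/
noncomputable def Mx {A : Type*} [CommRing A] (n : ℕ) (h f : A[X]) : Matrix (Fin n) (Fin n) A :=
  fun i j => ((f * X ^ (j : ℕ)) %ₘ h).coeff (i : ℕ)

theorem norm_mx {A : Type*} [CommRing A] {n : ℕ} {h : A[X]} (hm : h.Monic)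
    (hn : h.natDegree = n) (f : A[X]) :
    Algebra.norm A (AdjoinRoot.mk h f) = (Mx n h f).det := by
  subst hn
  rw [Algebra.norm_eq_matrix_det (AdjoinRoot.powerBasisAux' hm)]
  congr 1
  ext i j
  rw [Algebra.leftMulMatrix_eq_repr_mul, AdjoinRoot.powerBasisAux'_repr_apply_to_fun]
  have h1 : (AdjoinRoot.powerBasisAux' hm) j = AdjoinRoot.mk h (X ^ (j : ℕ)) := by
    have h2 := (AdjoinRoot.powerBasis' hm).basis_eq_pow j
    rw [AdjoinRoot.powerBasis'_gen] at h2
    rw [map_pow, AdjoinRoot.mk_X]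
    exact h2
  rw [h1, ← map_mul, AdjoinRoot.modByMonicHom_mk]
  rfl

theorem mx_map {A B : Type*} [CommRing A] [CommRing B] (φ : A →+* B) (n : ℕ) {h : A[X]}
    (hm : h.Monic) (f : A[X]) : (Mx n (h.map φ) (f.map φ)).det = φ (Mx n h f).det := by
  rw [RingHom.map_det]
  congr 1
  ext i j
  unfold Mx
  rw [RingHom.mapMatrix_apply, Matrix.map_apply, ← coeff_map, Polynomial.map_modByMonic φ hm,
    Polynomial.map_mul, Polynomial.map_pow, map_X]

theorem mx_smul {A : Type*} [CommRing A] (n : ℕ) (h : A[X]) (c : A) (f : A[X]) :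
    (Mx n h (C c * f)).det = c ^ n * (Mx n h f).det := by
  have h1 : Mx n h (C c * f) = c • Mx n h f := by
    ext i j
    unfold Mx
    rw [Matrix.smul_apply, mul_assoc, ← smul_eq_C_mul, smul_modByMonic, coeff_smul]
  rw [h1, Matrix.det_smul, Fintype.card_fin]

theorem cop_of_norm {k : Type*} [Field k] {n : ℕ} {h : k[X]} (hm : h.Monic)
    (hn : h.natDegree = n) (f : k[X]) (hd : (Mx n h f).det ≠ 0) : IsCoprime h f := by
  rw [← norm_mx hm hn, Algebra.norm_apply] at hd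
  have hfin : Module.Finite k (AdjoinRoot h) := Module.Finite.of_basis
    (AdjoinRoot.powerBasisAux' hm)
  obtain ⟨x, hx⟩ := (LinearMap.equivOfDetNeZero _ hd).surjective 1
  obtain ⟨q, hq⟩ := AdjoinRoot.mk_surjective x
  have h1 : AdjoinRoot.mk h f * x = 1 := hx
  rw [← hq, ← map_mul, ← map_one (AdjoinRoot.mk h), ← sub_eq_zero, ← map_sub,
    AdjoinRoot.mk_eq_zero] at h1
  obtain ⟨s, hs⟩ := h1
  refine ⟨-s, q, ?_⟩
  linear_combination hs

theorem lc (nv : NvStmt) : LcStmt := by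
  classical
  intro g d p hp K _ _ hd Cv w hpw hh hcase
  by_cases hfo : IsOfFinOrder Cv.infty
  swap
  · rw [orderOf_eq_zero hfo]
    exact Nat.zero_le _
  obtain ⟨n₀, hn₀, hn₁⟩ := isOfFinOrder_iff_pow_eq_one.1 hfo
  have hU₀ : U Cv.shape n₀ := (Cv.infty_pow_eq_one_iff n₀).1 hn₁
  have S := Cv.shape
  by_cases hdom : ∃ i, 1 ≤ vabs w (Cv.r.coeff i)
  · obtain ⟨i, hi⟩ := hdom
    have hi0 : Cv.r.coeff i ≠ 0 := by
      intro h0
      rw [h0] at hi
      unfold vabs at hi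
      rw [map_zero] at hi
      exact not_lt.2 hi zero_lt_one
    have hig : i ≤ g := (le_natDegree_of_ne_zero hi0).trans S.degr
    have h1 : Dom g Cv.h Cv.r w := by
      refine dom_of hig hi0 fun j _ => ?_
      exact (pow_le_one₀ zero_le (hh j)).trans (one_le_pow₀ hi)
    exact (orderOf_le hp hd Cv hpw h1).trans (Nat.le_add_right _ _)
  have hnorm := hcase.resolve_left hdom
  push Not at hdom
  have hdvr : IsDiscreteValuationRing (VR K w) := vr_dvr K w
  have hinj := vr_inj K w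
  -- the content of `r`
  obtain ⟨i₀, hi₀, hmax⟩ := Finset.exists_max_image (Finset.range (g + 1))
    (fun j => w.valuation K (Cv.r.coeff j)) ⟨0, by simp⟩
  have hmax' : ∀ j, w.valuation K (Cv.r.coeff j) ≤ w.valuation K (Cv.r.coeff i₀) := by
    intro j
    rcases Nat.lt_or_ge j (g + 1) with hj | hj
    · exact hmax j (Finset.mem_range.2 hj)
    · rw [coeff_eq_zero_of_natDegree_lt (lt_of_le_of_lt S.degr hj), map_zero]
      exact zero_le
  obtain ⟨c, hc⟩ : ∃ c, c = Cv.r.coeff i₀ := ⟨_, rfl⟩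
  rw [← hc] at hmax'
  have hc0 : c ≠ 0 := by
    intro h0
    apply Cv.r_ne_zero
    ext j
    have h1 := hmax' j
    rw [h0, map_zero, le_zero_iff, Valuation.zero_iff] at h1
    rw [h1, coeff_zero]
  have hc1 : w.valuation K c < 1 := by
    rw [hc]
    exact hdom i₀
  have hvc : w.valuation K c ≠ 0 := (Valuation.ne_zero_iff _).2 hc0
  obtain ⟨ρE, hρE⟩ : ∃ ρE : K[X], ρE = C c⁻¹ * Cv.r := ⟨_, rfl⟩
  have hρint : ∀ j, w.valuation K (ρE.coeff j) ≤ 1 := by
    intro j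
    rw [hρE, coeff_C_mul, map_mul, map_inv₀, mul_comm, ← div_eq_mul_inv]
    exact div_le_one_of_le₀ (hmax' j) zero_le
  obtain ⟨ρ, hρ⟩ := vr_lift K w hρint
  obtain ⟨h₁, hh₁⟩ := vr_lift K w hh
  have hm₁ : h₁.Monic := by
    refine Polynomial.monic_of_injective hinj ?_
    rw [hh₁]
    exact S.monic
  have hn₁ : h₁.natDegree = g + 1 := by
    rw [← S.deg, ← hh₁, natDegree_map_eq_of_injective hinj]
  have hrc : Cv.r = C c * ρE := by
    rw [hρE, ← mul_assoc, ← C_mul, mul_inv_cancel₀ hc0, C_1, one_mul]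
  obtain ⟨b, hb⟩ : ∃ b : VR K w, algebraMap (VR K w) K b = c :=
    ⟨⟨c, (vr_mem K w c).2 hc1.le⟩, rfl⟩
  have hrmap : Cv.r = (C b * ρ).map (algebraMap (VR K w) K) := by
    rw [Polynomial.map_mul, map_C, hb, hρ]
    exact hrc
  have hb0 : b ≠ 0 := by
    intro h0
    apply hc0
    rw [← hb, h0, map_zero]
  have hbu : ¬ IsUnit b := by
    rw [vr_lt]
    have h1 : ((b : VR K w) : K) = c := hb
    rw [h1]
    exact hc1
  -- the norm
  have hN1 : Algebra.norm K (AdjoinRoot.mk Cv.h Cv.r) =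
      c ^ (g + 1) * algebraMap (VR K w) K (Mx (g + 1) h₁ ρ).det := by
    rw [norm_mx S.monic S.deg, ← mx_map _ _ hm₁, hh₁, hρ, ← mx_smul, ← hrc]
  have hN2 : 1 ≤ w.valuation K (algebraMap (VR K w) K (Mx (g + 1) h₁ ρ).det) := by
    have h1 := hnorm i₀
    rw [hN1, ← hc] at h1
    unfold vabs at h1
    rw [map_mul, map_pow] at h1
    have h2 : 0 < w.valuation K c ^ (g + 1) := by
      rw [zero_lt_iff]
      exact pow_ne_zero _ hvc
    exact (le_mul_iff_one_le_right h2).1 h1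
  have hN3 : IsUnit (Mx (g + 1) h₁ ρ).det := by
    rw [vr_unit]
    exact le_antisymm ((vr_mem K w _).1 (Mx (g + 1) h₁ ρ).det.2) hN2
  have hcop : IsCoprime (rd _ h₁) (rd _ ρ) := by
    refine cop_of_norm (n := g + 1) (hm₁.map _) ?_ _ ?_
    · rw [hm₁.natDegree_map, hn₁]
    · rw [mx_map _ _ hm₁]
      exact (hN3.map _).ne_zero
  obtain ⟨N, hN0, hNB, hN⟩ := nv K w p g hp hpw h₁ ρ b Cv.h Cv.r S hb0 hbu hcop hh₁.symm hrmap
    ⟨n₀, hn₀, hU₀⟩
  refine (orderOf_le_of_pow_eq_one hN0 ((Cv.infty_pow_eq_one_iff N).2 hN)).trans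
    (hNB.trans ((?_ : _ ≤ bl g p d).trans (Nat.le_add_left _ _)))
  unfold bl
  have hp1 : 1 ≤ p := hp.one_lt.le
  gcongr

end Pool.Agent.TS.H76
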