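import Pool.Agent.Helper23_TS.Stmts

/-!
# PW: the level of a `p`-th power
-/

set_option autoImplicit false

open Polynomial

namespace Pool.Agent.TS.H76

open H12UBI H58UB Pool.Agent.TS

theorem dpow {V : Type} [CommRing V] {π : V} {p : ℕ} (hp : p.Prime) {e : ℕ} {ε : V}
    (hpe : (p : V) = ε * π ^ e) {t : ℕ} {m n : ℤ} {s : LaurentSeries V} (hs : Ge m s)
    (hd : D (π ^ t) n s) {t' : ℕ} (h1 : t' ≤ t + e) (h2 : t' ≤ p * t) :
    D (π ^ t') (p * n) (s ^ p) := by
  obtain ⟨x, b, hxb, hx, hb⟩ := hd.split hs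
  rw [hxb]
  obtain ⟨s', hs'⟩ := exists_add_pow_prime_eq hp x (HahnSeries.C (π ^ t) * b)
  rw [hs']
  refine (D.add ?_ ?_).add ?_
  · exact D.of_ge (hx.pow p)
  · rw [mul_pow, ← map_pow, ← pow_mul, mul_comm t p]
    exact D.C_mul.of_dvd (pow_dvd_pow π h2)
  · have h3 : (p : LaurentSeries V) = HahnSeries.C (p : V) := by simp
    rw [h3, hpe]
    have h4 : HahnSeries.C (ε * π ^ e) * x * (HahnSeries.C (π ^ t) * b) * s' =
        HahnSeries.C (π ^ (t + e)) * (HahnSeries.C ε * (x * b * s')) := by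
      rw [map_mul, pow_add, map_mul]; ring
    rw [h4]
    exact D.C_mul.of_dvd (pow_dvd_pow π h1)

theorem re_pow {V : Type} [CommRing V] [IsLocalRing V] {h r : V[X]} (hr : rd V r = 0)
    (s : CR V h r) (k : ℕ) : rd V (s ^ k).re = rd V s.re ^ k := by
  induction k with
  | zero =>
    rw [pow_zero, pow_zero, QuadraticAlgebra.re_one]
    simp only [rd, Polynomial.map_one]
  | succ k ih =>
    rw [pow_succ, pow_succ, QuadraticAlgebra.re_mul]
    simp only [rd, Polynomial.map_add, Polynomial.map_mul] at hr ih ⊢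
    rw [ih, hr]
    ring

theorem pw : PwStmt := by
  intro V _ _ _ g h r ρ c π hdat S p ε e hp hpe t t' j w s hL h1 h2
  have hr : rd V r = 0 := by
    rw [hdat.hr]
    simp only [rd, Polynomial.map_mul, Polynomial.map_C]
    have : IsLocalRing.residue V c = 0 := (residue_eq_zero_iff' hdat.irr c).2 hdat.pc
    rw [this, C_0, zero_mul]
  refine ⟨?_, ?_, ?_, ?_, ?_, ?_⟩
  · have h3 := hL.pr
    unfold Pr at h3 ⊢
    have h4 := congrArg (fun z => z ^ p) h3
    simp only [mul_pow, ← pow_mul, ← map_pow] at h4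
    rw [mul_comm p j]
    exact h4
  · rw [map_pow]
    exact (hL.p0.pow p).mono (by push_cast; apply le_of_eq; ring)
  · rw [map_pow]
    exact (hL.p1.pow p).mono (by push_cast; apply le_of_eq; ring)
  · rw [map_pow]
    have := dpow hp hpe hL.p0 hL.d0 h1 h2
    rwa [mul_zero] at this
  · rw [map_pow]
    have h5 := dpow hp hpe hL.p1 hL.d1 h1 h2
    have h6 : (p : ℤ) * (-(((g + 1) * j : ℕ) : ℤ)) = -(((g + 1) * (p * j) : ℕ) : ℤ) := by
      push_cast; ring
    rwa [h6] at h5
  · rw [re_pow hr]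
    exact pow_ne_zero p hL.ne

end Pool.Agent.TS.H76
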